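import Pool.Agent.Helper272_TF.C
import Pool.Agent.H796H.TDefs

set_option autoImplicit false

open Complex Module

namespace Pool.Agent.Helper272_TF

open Pool.Agent.H796H

theorem Th_eq (n : ℤ) (a : ℂ) : Th n a = Theta n (e (-a)) := by
  have h : ∀ z : ℂ, cexp (-2 * Real.pi * I * (n * z + a)) = e (-a) * e (-(n : ℂ) * z) := by
    intro z
    unfold e
    rw [← Complex.exp_add]
    congr 1
    ring
  ext f
  constructor
  · rintro ⟨h1, h2, h3⟩
    exact ⟨h1, h2, fun z => by rw [h3, h]⟩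
  · rintro ⟨h1, h2, h3⟩
    exact ⟨h1, h2, fun z => by rw [h3, h]⟩

theorem f1 : S_F1 := by
  intro n a hn
  obtain ⟨m, rfl⟩ := Int.eq_ofNat_of_zero_le (by omega : 0 ≤ n)
  have hm : 1 ≤ m := by exact_mod_cast hn
  rw [Th_eq]
  exact ⟨fin_Theta hm (e_ne _), by
    have := finrank_Theta hm (e_ne (-a))
    exact_mod_cast this.le⟩

theorem f4 : S_F4 := by
  intro n a hn
  obtain ⟨m, rfl⟩ := Int.eq_ofNat_of_zero_le (by omega : 0 ≤ n)
  have hm : 1 ≤ m := by exact_mod_cast hn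
  rw [Th_eq]
  have := finrank_Theta hm (e_ne (-a))
  exact_mod_cast this

theorem f2 : S_F2 := by
  obtain ⟨b, hb⟩ := e_surj a0_ne
  refine ⟨-b, th, ?_, th_ne, th_zero⟩
  rw [Th_eq, neg_neg, hb]
  exact th_mem

theorem f0 : S_F0 := by
  intro n a f hn hf
  obtain ⟨m, rfl⟩ := Int.eq_ofNat_of_zero_le (by omega : 0 ≤ n)
  have hm : 1 ≤ m := by exact_mod_cast hn
  rw [Th_eq] at hf
  exact exists_zero hm (e_ne _) hf

end Pool.Agent.Helper272_TF
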