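import Mathlib

set_option autoImplicit false

open Complex Filter Topology Set

namespace Pool.Agent.Helper272_TF

/-- `e z = exp (2 π i z)` -/
noncomputable def e (z : ℂ) : ℂ := cexp (2 * Real.pi * I * z)

theorem e_add (z w : ℂ) : e (z + w) = e z * e w := by
  unfold e
  rw [← Complex.exp_add]
  ring_nf

theorem e_ne (z : ℂ) : e z ≠ 0 := Complex.exp_ne_zero _

theorem e_zero : e 0 = 1 := by simp [e]

theorem e_neg (z : ℂ) : e (-z) = (e z)⁻¹ := by
  unfold e
  rw [← Complex.exp_neg]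
  ring_nf

theorem e_int (m : ℤ) : e m = 1 := by
  unfold e
  rw [show 2 * Real.pi * I * (m : ℂ) = m * (2 * Real.pi * I) by ring]
  exact Complex.exp_int_mul_two_pi_mul_I m

theorem e_surj {a : ℂ} (ha : a ≠ 0) : ∃ z, e z = a := by
  refine ⟨log a / (2 * Real.pi * I), ?_⟩
  unfold e
  have h : (2 * Real.pi * I : ℂ) ≠ 0 := Complex.two_pi_I_ne_zero
  rw [mul_div_cancel₀ _ h, Complex.exp_log ha]

theorem e_eq_one {z : ℂ} (h : e z = 1) : ∃ m : ℤ, z = m := by
  unfold e at h
  obtain ⟨m, hm⟩ := Complex.exp_eq_one_iff.1 h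
  refine ⟨m, ?_⟩
  have h2 : (2 * Real.pi * I : ℂ) ≠ 0 := Complex.two_pi_I_ne_zero
  have h3 : (2 * Real.pi * I : ℂ) * z = (2 * Real.pi * I) * m := by rw [hm]; ring
  exact mul_left_cancel₀ h2 h3

theorem e_diff : Differentiable ℂ e := by
  unfold e
  fun_prop

theorem e_nat_mul (n : ℕ) (z : ℂ) : e (n * z) = e z ^ n := by
  unfold e
  rw [← Complex.exp_nat_mul]
  ring_nf

/-- Theta functions of degree `n` for the lattice `ℤ + ℤ i`. -/
noncomputable def Theta (n : ℤ) (a : ℂ) : Submodule ℂ (ℂ → ℂ) where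
  carrier := {f | Differentiable ℂ f ∧ (∀ z, f (z + 1) = f z) ∧
    ∀ z, f (z + I) = a * e (-(n : ℂ) * z) * f z}
  add_mem' := by
    rintro f g ⟨h1, h2, h3⟩ ⟨g1, g2, g3⟩
    refine ⟨h1.add g1, fun z => ?_, fun z => ?_⟩
    · simp only [Pi.add_apply, h2, g2]
    · simp only [Pi.add_apply, h3, g3]; ring
  zero_mem' := by
    refine ⟨differentiable_const (0 : ℂ), fun z => rfl, fun z => ?_⟩
    simp
  smul_mem' := by
    rintro c f ⟨h1, h2, h3⟩
    refine ⟨h1.const_smul c, fun z => ?_, fun z => ?_⟩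
    · simp only [Pi.smul_apply, h2]
    · simp only [Pi.smul_apply, h3, smul_eq_mul]; ring

theorem mem_Theta {n : ℤ} {a : ℂ} {f : ℂ → ℂ} : f ∈ Theta n a ↔
    Differentiable ℂ f ∧ (∀ z, f (z + 1) = f z) ∧
      ∀ z, f (z + I) = a * e (-(n : ℂ) * z) * f z := Iff.rfl

theorem mul_mem {n m : ℤ} {a b : ℂ} {f g : ℂ → ℂ} (hf : f ∈ Theta n a) (hg : g ∈ Theta m b) :
    f * g ∈ Theta (n + m) (a * b) := by
  obtain ⟨h1, h2, h3⟩ := hf
  obtain ⟨g1, g2, g3⟩ := hg
  refine ⟨h1.mul g1, fun z => ?_, fun z => ?_⟩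
  · simp only [Pi.mul_apply, h2, g2]
  · simp only [Pi.mul_apply, h3, g3]
    rw [show (-((n + m : ℤ) : ℂ) * z) = -(n : ℂ) * z + -(m : ℂ) * z by push_cast; ring, e_add]
    ring

theorem one_mem : (1 : ℂ → ℂ) ∈ Theta 0 1 := by
  refine ⟨differentiable_const (1 : ℂ), fun z => rfl, fun z => ?_⟩
  simp [e_zero]

theorem shift_mem {n : ℤ} {a : ℂ} {f : ℂ → ℂ} (hf : f ∈ Theta n a) (Q : ℂ) :
    (fun z => f (z - Q)) ∈ Theta n (a * e (n * Q)) := by
  obtain ⟨h1, h2, h3⟩ := hf
  refine ⟨h1.comp (differentiable_id.sub_const Q), fun z => ?_, fun z => ?_⟩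
  · simp only
    rw [show z + 1 - Q = z - Q + 1 by ring, h2]
  · simp only
    rw [show z + I - Q = z - Q + I by ring, h3,
      show -(n : ℂ) * (z - Q) = n * Q + -(n : ℂ) * z by ring, e_add]
    ring

theorem diff_of_mem {n : ℤ} {a : ℂ} {f : ℂ → ℂ} (hf : f ∈ Theta n a) : Differentiable ℂ f := hf.1

/-- the identity theorem for products -/
theorem mul_eq_zero' {f g : ℂ → ℂ} (hf : Differentiable ℂ f) (hg : Differentiable ℂ g)
    (h : f * g = 0) : f = 0 ∨ g = 0 := by
  have h1 : AnalyticOnNhd ℂ f univ := fun z _ => (hf.analyticAt z)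
  have h2 : AnalyticOnNhd ℂ g univ := fun z _ => (hg.analyticAt z)
  rcases AnalyticOnNhd.eq_zero_or_eq_zero_of_mul_eq_zero h1 h2
    (fun z _ => congrFun h z) isPreconnected_univ with h3 | h3
  · exact Or.inl (funext fun z => h3 z (mem_univ z))
  · exact Or.inr (funext fun z => h3 z (mem_univ z))

theorem mul_ne {f g : ℂ → ℂ} (hf : Differentiable ℂ f) (hg : Differentiable ℂ g)
    (h1 : f ≠ 0) (h2 : g ≠ 0) : f * g ≠ 0 := fun h =>
  (mul_eq_zero' hf hg h).elim h1 h2

/-- an entire function that vanishes on the real axis is zero -/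
theorem zero_of_real {f : ℂ → ℂ} (hf : Differentiable ℂ f) (h : ∀ x : ℝ, f x = 0) : f = 0 := by
  have h1 : AnalyticOnNhd ℂ f univ := fun z _ => (hf.analyticAt z)
  have h2 : ∃ᶠ z in 𝓝[≠] (0 : ℂ), f z = 0 := by
    have h3 : Tendsto (fun x : ℝ => (x : ℂ)) (𝓝[≠] (0 : ℝ)) (𝓝[≠] (0 : ℂ)) := by
      refine tendsto_nhdsWithin_iff.2 ⟨?_, ?_⟩
      · have := Complex.continuous_ofReal.tendsto (0 : ℝ)
        simp only [Complex.ofReal_zero] at this
        exact this.mono_left nhdsWithin_le_nhds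
      · filter_upwards [self_mem_nhdsWithin] with x hx
        simpa using hx
    exact h3.frequently (Eventually.frequently (Eventually.of_forall fun x => h x))
  have h4 := h1.eqOn_zero_of_preconnected_of_frequently_eq_zero isPreconnected_univ (mem_univ 0) h2
  funext z
  exact h4 (mem_univ z)

/-- the Fourier coefficients -/
noncomputable def cf (f : ℂ → ℂ) (k : ℤ) : ℂ := ∫ x in (0 : ℝ)..1, f x * e (-(k : ℂ) * x)

/-- the integral over a horizontal period does not depend on the height -/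
theorem int_shift {g : ℂ → ℂ} (hg : Differentiable ℂ g) (hp : ∀ z, g (z + 1) = g z) :
    ∫ x in (0 : ℝ)..1, g (x + I) = ∫ x in (0 : ℝ)..1, g x := by
  have h := Complex.integral_boundary_rect_eq_zero_of_differentiableOn g 0 (1 + I)
    hg.differentiableOn
  simp only [Complex.zero_re, Complex.zero_im, Complex.add_re, Complex.one_re, Complex.I_re,
    add_zero, Complex.add_im, Complex.one_im, Complex.I_im, zero_add, Complex.ofReal_zero,
    zero_mul, Complex.ofReal_one, one_mul] at h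
  have h2 : ∀ y : ℝ, g (1 + y * I) = g (y * I) := by
    intro y
    rw [add_comm, hp]
  simp only [h2] at h
  have h3 : (∫ x in (0 : ℝ)..1, g x) - (∫ x in (0 : ℝ)..1, g (x + I)) = 0 := by
    have := h
    linear_combination this
  exact (sub_eq_zero.1 h3).symm

theorem cf_rec {n : ℤ} {a : ℂ} {f : ℂ → ℂ} (hf : f ∈ Theta n a) (k : ℤ) :
    a * e (-(k : ℂ) * I) * cf f (k + n) = cf f k := by
  obtain ⟨h1, h2, h3⟩ := hf
  have h := int_shift (g := fun z => f z * e (-(k : ℂ) * z))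
    (h1.mul (e_diff.comp (by fun_prop))) (fun z => by
      rw [h2, show -(k : ℂ) * (z + 1) = ((-k : ℤ) : ℂ) + -(k : ℂ) * z by push_cast; ring, e_add,
        e_int, one_mul])
  unfold cf
  rw [← h, ← intervalIntegral.integral_const_mul]
  refine intervalIntegral.integral_congr fun x _ => ?_
  show a * e (-(k : ℂ) * I) * (f x * e (-((k + n : ℤ) : ℂ) * x)) = f (x + I) * e (-(k : ℂ) * (x + I))
  rw [h3, show (-(k : ℂ) * ((x : ℂ) + I)) = -(k : ℂ) * x + -(k : ℂ) * I by ring, e_add,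
    show (-((k + n : ℤ) : ℂ) * (x : ℂ)) = -(k : ℂ) * x + -(n : ℂ) * x by push_cast; ring, e_add]
  ring

end Pool.Agent.Helper272_TF
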