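import Pool.Agent.Helper272_TF.A

set_option autoImplicit false

open Complex Filter Topology Set Module

namespace Pool.Agent.Helper272_TF

theorem cf_zero_all {n : ℤ} (hn : 1 ≤ n) {a : ℂ} (ha : a ≠ 0) {f : ℂ → ℂ} (hf : f ∈ Theta n a)
    (h : ∀ j : ℤ, 0 ≤ j → j < n → cf f j = 0) (k : ℤ) : cf f k = 0 := by
  have key : ∀ m r : ℤ, cf f r = 0 → cf f (r + m * n) = 0 := by
    intro m
    induction m using Int.induction_on with
    | zero => intro r hr; simpa using hr
    | succ i ih =>
      intro r hr
      have h1 := ih r hr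
      have h2 := cf_rec hf (r + (i : ℤ) * n)
      rw [h1] at h2
      rw [show r + ((i : ℤ) + 1) * n = r + (i : ℤ) * n + n by ring]
      exact (mul_eq_zero.1 h2).resolve_left (mul_ne_zero ha (e_ne _))
    | pred i ih =>
      intro r hr
      have h1 := ih r hr
      have h2 := cf_rec hf (r + (-(i : ℤ) - 1) * n)
      rw [show r + (-(i : ℤ) - 1) * n + n = r + -(i : ℤ) * n by ring, h1, mul_zero] at h2
      exact h2.symm
  have h1 := key (k / n) (k % n) (h _ (Int.emod_nonneg _ (by omega)) (Int.emod_lt_of_pos _ (by omega)))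
  rwa [Int.emod_add_ediv_mul] at h1

theorem zero_of_cf {f : ℂ → ℂ} (hf : Differentiable ℂ f) (hp : ∀ z, f (z + 1) = f z)
    (h : ∀ k : ℤ, cf f k = 0) (x : ℝ) : f x = 0 := by
  have : Fact (0 < (1 : ℝ)) := ⟨one_pos⟩
  have hper : Function.Periodic (fun x : ℝ => f x) 1 := fun x => by
    have := hp x
    simp only [Complex.ofReal_add, Complex.ofReal_one]
    exact this
  let F : C(AddCircle (1 : ℝ), ℂ) := ⟨hper.lift, continuous_coinduced_dom.2
    (hf.continuous.comp Complex.continuous_ofReal)⟩
  have hFx : ∀ y : ℝ, F (y : AddCircle (1 : ℝ)) = f y := fun y => rfl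
  have hF : ∀ k : ℤ, fourierCoeff F k = 0 := by
    intro k
    rw [fourierCoeff_eq_intervalIntegral _ k 0]
    have h1 : ∫ y in (0 : ℝ)..0 + 1, fourier (-k) (y : AddCircle (1 : ℝ)) • F (y : AddCircle (1 : ℝ))
        = cf f k := by
      unfold cf
      rw [zero_add]
      refine intervalIntegral.integral_congr fun y _ => ?_
      show fourier (-k) (y : AddCircle (1 : ℝ)) • F (y : AddCircle (1 : ℝ)) = f y * e (-(k : ℂ) * y)
      rw [fourier_coe_apply, hFx, smul_eq_mul, mul_comm]
      congr 1
      unfold e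
      congr 1
      push_cast
      ring
    rw [h1, h k, smul_zero]
  have hs : Summable (fourierCoeff F) := by
    rw [show fourierCoeff F = fun _ => 0 from funext hF]
    exact summable_zero
  have h2 := hasSum_fourier_series_of_summable hs
  have h3 : (fun i => fourierCoeff F i • fourier i) = fun _ => (0 : C(AddCircle (1 : ℝ), ℂ)) := by
    funext i
    rw [hF i, zero_smul]
  rw [h3] at h2
  have h4 : F = 0 := h2.unique hasSum_zero
  rw [← hFx, h4]
  rfl

/-- the coefficients `0, ..., n-1` determine a theta function -/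
noncomputable def coeffs (n : ℕ) (a : ℂ) : Theta n a →ₗ[ℂ] (Fin n → ℂ) where
  toFun f j := cf f.1 (j : ℕ)
  map_add' f g := by
    funext j
    simp only [cf, Submodule.coe_add, Pi.add_apply]
    rw [← intervalIntegral.integral_add]
    · refine intervalIntegral.integral_congr fun x _ => ?_
      ring
    · exact (Continuous.mul ((diff_of_mem f.2).continuous.comp Complex.continuous_ofReal)
        (e_diff.continuous.comp (by fun_prop))).intervalIntegrable _ _
    · exact (Continuous.mul ((diff_of_mem g.2).continuous.comp Complex.continuous_ofReal)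
        (e_diff.continuous.comp (by fun_prop))).intervalIntegrable _ _
  map_smul' c f := by
    funext j
    simp only [cf, Submodule.coe_smul, Pi.smul_apply, smul_eq_mul, RingHom.id_apply]
    rw [← intervalIntegral.integral_const_mul]
    refine intervalIntegral.integral_congr fun x _ => ?_
    ring

theorem coeffs_inj {n : ℕ} (hn : 1 ≤ n) {a : ℂ} (ha : a ≠ 0) :
    Function.Injective (coeffs n a) := by
  rw [← LinearMap.ker_eq_bot, LinearMap.ker_eq_bot']
  intro f hf
  have h1 : ∀ k, cf f.1 k = 0 := cf_zero_all (n := n) (by exact_mod_cast hn) ha f.2 (by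
    intro j hj0 hj1
    obtain ⟨m, rfl⟩ := Int.eq_ofNat_of_zero_le hj0
    have h2 := congrFun hf ⟨m, by exact_mod_cast hj1⟩
    exact h2)
  have h2 := zero_of_real f.2.1 (zero_of_cf f.2.1 f.2.2.1 h1)
  exact Subtype.ext h2

theorem theta_zero_ne {t : ℝ} (ht : 0 < t) : jacobiTheta₂ 0 (t * I) ≠ 0 := by
  have him : 0 < (t * I : ℂ).im := by simpa using ht
  have h := hasSum_jacobiTheta₂_term 0 him
  intro h0
  rw [h0] at h
  have h1 := Complex.hasSum_re h
  have h2 : ∀ m : ℤ, (jacobiTheta₂_term m 0 (t * I)).re = Real.exp (-Real.pi * m ^ 2 * t) := by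
    intro m
    unfold jacobiTheta₂_term
    rw [show (2 * Real.pi * I * m * 0 + Real.pi * I * m ^ 2 * (t * I) : ℂ)
      = ((-Real.pi * m ^ 2 * t : ℝ) : ℂ) by
        push_cast
        linear_combination (Real.pi * m ^ 2 * t : ℂ) * Complex.I_mul_I]
    rw [← Complex.ofReal_exp, Complex.ofReal_re]
  simp only [h2] at h1
  have h4 : Real.exp (-Real.pi * (0 : ℤ) ^ 2 * t) ≤ 0 := by
    have h3 := le_hasSum h1 0 (fun j _ => (Real.exp_pos _).le)
    simpa only [Complex.zero_re] using h3
  have h5 := Real.exp_pos (-Real.pi * (0 : ℤ) ^ 2 * t)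
  linarith

theorem exists_basis_fun {n : ℕ} (hn : 1 ≤ n) {a : ℂ} (ha : a ≠ 0) (j : ℕ) :
    ∃ f : ℂ → ℂ, f ∈ Theta n a ∧ f ≠ 0 ∧ ∀ z, f (z + 1 / n) = e (j / n) * f z := by
  have hn0 : (n : ℂ) ≠ 0 := by exact_mod_cast (by omega : n ≠ 0)
  have hnr : (0 : ℝ) < n := by exact_mod_cast hn
  have him : 0 < ((n : ℂ) * I).im := by simpa using hnr
  obtain ⟨b, hb⟩ := e_surj (a := e (j * I) * cexp (Real.pi * n) / a)
    (div_ne_zero (mul_ne_zero (e_ne _) (Complex.exp_ne_zero _)) ha)
  refine ⟨fun z => e (j * z) * jacobiTheta₂ (n * z + b) (n * I), ⟨?_, ?_, ?_⟩, ?_, ?_⟩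
  · refine (e_diff.comp (by fun_prop)).mul fun z => ?_
    exact (differentiableAt_jacobiTheta₂_fst _ him).comp z
      (f := fun z : ℂ => (n : ℂ) * z + b) (by fun_prop)
  · intro z
    have h1 : ∀ (m : ℕ) (w : ℂ), jacobiTheta₂ (w + m) (n * I) = jacobiTheta₂ w (n * I) := by
      intro m
      induction m with
      | zero => intro w; simp
      | succ m ih =>
        intro w
        rw [show w + ((m + 1 : ℕ) : ℂ) = (w + m) + 1 by push_cast; ring, jacobiTheta₂_add_left, ih]
    show e (j * (z + 1)) * jacobiTheta₂ (n * (z + 1) + b) (n * I) = _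
    rw [show (n : ℂ) * (z + 1) + b = (n * z + b) + n by ring, h1,
      show (j : ℂ) * (z + 1) = j * z + ((j : ℤ) : ℂ) by push_cast; ring, e_add, e_int, mul_one]
  · intro z
    show e (j * (z + I)) * jacobiTheta₂ (n * (z + I) + b) (n * I) = _
    rw [show (n : ℂ) * (z + I) + b = (n * z + b) + n * I by ring, jacobiTheta₂_add_left',
      show (j : ℂ) * (z + I) = j * z + j * I by ring, e_add]
    have h2 : cexp (-Real.pi * I * (n * I + 2 * (n * z + b))) =
        cexp (Real.pi * n) * e (-(n : ℂ) * z) * (e b)⁻¹ := by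
      rw [← e_neg]
      unfold e
      rw [← Complex.exp_add, ← Complex.exp_add]
      congr 1
      linear_combination (-Real.pi * n : ℂ) * Complex.I_mul_I
    rw [h2, hb]
    have h3 := e_ne (j * I)
    have h4 := Complex.exp_ne_zero (Real.pi * n)
    rw [Int.cast_natCast]
    field_simp
  · intro h
    have h1 := congrFun h (-b / n)
    simp only [Pi.zero_apply] at h1
    rw [show (n : ℂ) * (-b / n) + b = 0 by field_simp; ring] at h1
    have h2 := theta_zero_ne hnr
    rw [Complex.ofReal_natCast] at h2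
    exact (mul_ne_zero (e_ne _) h2) h1
  · intro z
    show e (j * (z + 1 / n)) * jacobiTheta₂ (n * (z + 1 / n) + b) (n * I) = _
    rw [show (n : ℂ) * (z + 1 / n) + b = (n * z + b) + 1 by field_simp; ring, jacobiTheta₂_add_left,
      show (j : ℂ) * (z + 1 / n) = j / n + j * z by ring, e_add]
    ring

theorem fin_Theta {n : ℕ} (hn : 1 ≤ n) {a : ℂ} (ha : a ≠ 0) : FiniteDimensional ℂ (Theta n a) :=
  FiniteDimensional.of_injective (coeffs n a) (coeffs_inj hn ha)

theorem finrank_Theta {n : ℕ} (hn : 1 ≤ n) {a : ℂ} (ha : a ≠ 0) : finrank ℂ (Theta n a) = n := by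
  have := fin_Theta hn ha
  apply le_antisymm
  · have := LinearMap.finrank_le_finrank_of_injective (coeffs_inj hn ha)
    simpa using this
  · have hn0 : (n : ℂ) ≠ 0 := by exact_mod_cast (by omega : n ≠ 0)
    choose f hf1 hf2 hf3 using fun j : Fin n => exists_basis_fun hn ha (j : ℕ)
    let S : Module.End ℂ (ℂ → ℂ) :=
      { toFun := fun g z => g (z + 1 / n)
        map_add' := fun g h => rfl
        map_smul' := fun c g => rfl }
    have h1 : LinearIndependent ℂ f := by
      refine Module.End.eigenvectors_linearIndependent' S (fun j : Fin n => e ((j : ℕ) / n)) ?_ f ?_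
      · intro i j hij
        have hij' : e (((i : ℕ) : ℂ) / n) = e (((j : ℕ) : ℂ) / n) := hij
        have h2 : e (((i : ℕ) - (j : ℕ) : ℂ) / n) = 1 := by
          rw [sub_div, sub_eq_add_neg, e_add, e_neg, hij']
          exact mul_inv_cancel₀ (e_ne _)
        obtain ⟨m, hm⟩ := e_eq_one h2
        rw [div_eq_iff hn0] at hm
        have hm2 : ((i : ℕ) : ℤ) - ((j : ℕ) : ℤ) = m * n := by exact_mod_cast hm
        have h3 : ((i : ℕ) : ℤ) < n := by exact_mod_cast i.2
        have h4 : ((j : ℕ) : ℤ) < n := by exact_mod_cast j.2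
        have h5 : (0 : ℤ) ≤ ((i : ℕ) : ℤ) := by positivity
        have h6 : (0 : ℤ) ≤ ((j : ℕ) : ℤ) := by positivity
        have h7 : m = 0 := by
          rcases lt_trichotomy m 0 with h | h | h
          · nlinarith
          · exact h
          · nlinarith
        rw [h7] at hm2
        apply Fin.ext
        omega
      · intro j
        refine ⟨?_, hf2 j⟩
        rw [Module.End.mem_eigenspace_iff]
        funext z
        exact hf3 j z
    have h2 : LinearIndependent ℂ (fun j : Fin n => (⟨f j, hf1 j⟩ : Theta n a)) := by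
      apply LinearIndependent.of_comp (Theta n a).subtype
      exact h1
    have h3 := h2.fintype_card_le_finrank
    simpa using h3

end Pool.Agent.Helper272_TF
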