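import Pool.Agent.Helper272_TF.B

set_option autoImplicit false

open Complex Filter Topology Set Module

namespace Pool.Agent.Helper272_TF

noncomputable def a0 : ℂ := -cexp (2 * Real.pi)

theorem a0_ne : a0 ≠ 0 := neg_ne_zero.2 (Complex.exp_ne_zero _)

/-- the odd theta function, with its zero at `0` -/
noncomputable def th (z : ℂ) : ℂ := jacobiTheta₂ (z + (1 + I) / 2) I

theorem th_mem : th ∈ Theta 1 a0 := by
  refine ⟨fun z => ?_, fun z => ?_, fun z => ?_⟩
  · exact (differentiableAt_jacobiTheta₂_fst _ (by simp)).comp z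
      (f := fun z : ℂ => z + (1 + I) / 2) (by fun_prop)
  · show jacobiTheta₂ (z + 1 + (1 + I) / 2) I = jacobiTheta₂ (z + (1 + I) / 2) I
    rw [show z + 1 + (1 + I) / 2 = (z + (1 + I) / 2) + 1 by ring, jacobiTheta₂_add_left]
  · show jacobiTheta₂ (z + I + (1 + I) / 2) I = a0 * e (-((1 : ℤ) : ℂ) * z) *
      jacobiTheta₂ (z + (1 + I) / 2) I
    rw [show z + I + (1 + I) / 2 = (z + (1 + I) / 2) + I by ring, jacobiTheta₂_add_left']
    congr 1
    unfold a0 e
    have h1 : (-1 : ℂ) = cexp (-(Real.pi * I)) := by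
      rw [Complex.exp_neg, Complex.exp_pi_mul_I]
      norm_num
    rw [show -cexp (2 * Real.pi) = (-1 : ℂ) * cexp (2 * Real.pi) by ring, h1, ← Complex.exp_add,
      ← Complex.exp_add]
    congr 1
    push_cast
    linear_combination (-2 * Real.pi : ℂ) * Complex.I_mul_I

theorem th_zero : th 0 = 0 := by
  unfold th
  rw [zero_add]
  have h1 : jacobiTheta₂ ((1 + I) / 2) I = -jacobiTheta₂ ((1 + I) / 2) I := by
    conv_lhs =>
      rw [show ((1 + I) / 2 : ℂ) = (-((1 + I) / 2) + I) + 1 by ring, jacobiTheta₂_add_left,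
        jacobiTheta₂_add_left', jacobiTheta₂_neg_left]
    rw [show (-Real.pi * I * (I + 2 * -((1 + I) / 2)) : ℂ) = Real.pi * I by ring,
      Complex.exp_pi_mul_I]
    ring
  have h2 : (2 : ℂ) * jacobiTheta₂ ((1 + I) / 2) I = 0 := by linear_combination h1
  simpa using h2

theorem th_ne : th ≠ 0 := by
  intro h
  have h1 := congrFun h (-((1 + I) / 2))
  unfold th at h1
  rw [neg_add_cancel] at h1
  have h2 := theta_zero_ne one_pos
  rw [Complex.ofReal_one, one_mul] at h2
  exact h2 h1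

/-- the theta function with its zero at `R` -/
noncomputable def thR (R z : ℂ) : ℂ := th (z - R)

theorem thR_mem (R : ℂ) : thR R ∈ Theta 1 (a0 * e R) := by
  have h := shift_mem th_mem R
  rw [show ((1 : ℤ) : ℂ) * R = R by push_cast; ring] at h
  exact h

theorem thR_self (R : ℂ) : thR R R = 0 := by
  unfold thR
  rw [sub_self, th_zero]

theorem thR_ne (R : ℂ) : thR R ≠ 0 := by
  intro h
  apply th_ne
  funext z
  have := congrFun h (z + R)
  simpa [thR] using this

theorem bounded_of_periodic {h : ℂ → ℂ} (hc : Continuous h) (h1 : ∀ z, h (z + 1) = h z)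
    (h2 : ∀ z, h (z + I) = h z) : Bornology.IsBounded (range h) := by
  have hK : IsCompact (Icc (0 : ℝ) 1 ×ℂ Icc (0 : ℝ) 1) := isCompact_Icc.reProdIm isCompact_Icc
  refine (hK.image hc).isBounded.subset ?_
  rintro _ ⟨z, rfl⟩
  refine ⟨z - (⌊z.re⌋ : ℂ) * 1 - (⌊z.im⌋ : ℂ) * I, ?_, ?_⟩
  · rw [Complex.mem_reProdIm]
    have e1 : (z - (⌊z.re⌋ : ℂ) * 1 - (⌊z.im⌋ : ℂ) * I).re = Int.fract z.re := by
      simp
    have e2 : (z - (⌊z.re⌋ : ℂ) * 1 - (⌊z.im⌋ : ℂ) * I).im = Int.fract z.im := by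
      simp
    rw [e1, e2]
    exact ⟨⟨Int.fract_nonneg _, (Int.fract_lt_one _).le⟩, Int.fract_nonneg _,
      (Int.fract_lt_one _).le⟩
  · have p1 : Function.Periodic h 1 := h1
    have p2 : Function.Periodic h I := h2
    rw [(p2.int_mul ⌊z.im⌋).sub_eq, (p1.int_mul ⌊z.re⌋).sub_eq]

/-- two theta functions of the same type, one of them without zeros, are proportional -/
theorem prop_of_no_zero {n : ℤ} {a : ℂ} {f g : ℂ → ℂ} (hf : f ∈ Theta n a) (hg : g ∈ Theta n a)
    (hz : ∀ z, f z ≠ 0) (ha : a ≠ 0) : ∃ c : ℂ, g = c • f := by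
  obtain ⟨f1, f2, f3⟩ := hf
  obtain ⟨g1, g2, g3⟩ := hg
  have hd : Differentiable ℂ (fun z => g z / f z) := fun z => (g1 z).div (f1 z) (hz z)
  obtain ⟨c, hc⟩ := hd.exists_const_forall_eq_of_bounded (bounded_of_periodic hd.continuous
    (fun z => by simp only [f2, g2]) (fun z => by
      simp only [f3, g3]
      exact mul_div_mul_left _ _ (mul_ne_zero ha (e_ne _))))
  refine ⟨c, funext fun z => ?_⟩
  have h1 : g z / f z = c := hc z
  rw [div_eq_iff (hz z)] at h1
  simpa using h1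

/-- in degree one all theta functions are multiples of a `thR` -/
theorem deg_one {a : ℂ} (ha : a ≠ 0) {f : ℂ → ℂ} (hf : f ∈ Theta 1 a) {R : ℂ}
    (hR : a0 * e R = a) : ∃ c : ℂ, f = c • thR R := by
  have h1 : finrank ℂ (Theta 1 a) = 1 := by
    have := finrank_Theta (n := 1) le_rfl ha
    simpa using this
  have hm : thR R ∈ Theta 1 a := hR ▸ thR_mem R
  have hne : (⟨thR R, hm⟩ : Theta 1 a) ≠ 0 := by
    intro h
    exact thR_ne R (congrArg Subtype.val h)
  obtain ⟨c, hc⟩ := (finrank_eq_one_iff_of_nonzero' _ hne).1 h1 ⟨f, hf⟩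
  exact ⟨c, (congrArg Subtype.val hc).symm⟩

theorem exists_R {a : ℂ} (ha : a ≠ 0) : ∃ R, a0 * e R = a := by
  obtain ⟨R, hR⟩ := e_surj (div_ne_zero ha a0_ne)
  exact ⟨R, by rw [hR, mul_div_cancel₀ _ a0_ne]⟩

/-- every theta function of positive degree has a zero -/
theorem exists_zero {n : ℕ} (hn : 1 ≤ n) {a : ℂ} (ha : a ≠ 0) {f : ℂ → ℂ} (hf : f ∈ Theta n a) :
    ∃ z, f z = 0 := by
  rcases hn.eq_or_lt with h | h
  · subst h
    have hf' : f ∈ Theta 1 a := by simpa using hf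
    obtain ⟨R, hR⟩ := exists_R ha
    obtain ⟨c, rfl⟩ := deg_one ha hf' hR
    exact ⟨R, by simp [thR_self]⟩
  · by_contra hcon
    push Not at hcon
    have hfin := fin_Theta hn ha
    have hdim := finrank_Theta hn ha
    have h1 : finrank ℂ (Theta n a) ≤ 1 := by
      apply finrank_le_one (⟨f, hf⟩ : Theta n a)
      rintro ⟨g, hg⟩
      obtain ⟨c, hc⟩ := prop_of_no_zero hf hg hcon ha
      exact ⟨c, Subtype.ext hc.symm⟩
    omega

end Pool.Agent.Helper272_TF
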